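import Pool.Agent.Q227.RL.Bound

/-!
# The conjectured bound for rich lines in `ℂ^d` fails for every `d ≥ 4`

Point set: `V_m = {(xz - y², x, y, z, 0, …, 0) : 0 ≤ x < m³, 0 ≤ y < 2m⁴, 0 ≤ z < 2m⁵}`.
-/

namespace Pool.Agent.Results.MP_0eaff0_co.RichLines

open Pool.Agent.Q227.RL

/-- For every `d ≥ 4` and every `m ≥ 2` there are `n = 4 m^12` points of `ℂ^d` with integer
coordinates such that the number of `m³`-rich lines is at least `n^{1/12}/200` times the bracketed
expression; in particular for every `d ≥ 4` no constant works. -/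
theorem result : ∀ d : ℕ, 4 ≤ d →
    (∀ m : ℕ, 2 ≤ m → ∃ V : Finset (Fin d → ℂ),
      V.card = 4 * m ^ 12 ∧ (∀ v ∈ V, ∀ i, ∃ k : ℤ, v i = (k : ℂ)) ∧
      (V.card : ℝ) ^ ((1 : ℝ) / 12) * bracket V (m ^ 3)
        ≤ 200 * ((richLines V (m ^ 3)).ncard : ℝ)) ∧
    (∀ C : ℝ, ∃ (V : Finset (Fin d → ℂ)) (r : ℕ), 2 ≤ r ∧
      C * bracket V r < ((richLines V r).ncard : ℝ)) := by
  intro d hd
  have bracket_nonneg : ∀ (V : Finset (Fin d → ℂ)) (r : ℕ), 0 ≤ bracket V r := by
    intro V r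
    unfold bracket
    positivity
  have main : ∀ m : ℕ, 2 ≤ m →
      (m : ℝ) * bracket (VV d m) (m ^ 3) ≤ 148 * ((richLines (VV d m) (m ^ 3)).ncard : ℝ) := by
    intro m hm
    have h1 := bracket_le hd hm
    have h2 : (m : ℝ) ^ 10 ≤ ((richLines (VV d m) (m ^ 3)).ncard : ℝ) := by
      exact_mod_cast card_richLines hd hm
    calc (m : ℝ) * bracket (VV d m) (m ^ 3) ≤ (m : ℝ) * (148 * (m : ℝ) ^ 9) := by gcongr
      _ = 148 * (m : ℝ) ^ 10 := by ring
      _ ≤ _ := by gcongr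
  refine ⟨?_, ?_⟩
  · intro m hm
    refine ⟨VV d m, card_VV hd m, fun v hv i => VV_int hv i, ?_⟩
    have h1 := main m hm
    have h2 := bracket_nonneg (VV d m) (m ^ 3)
    have h3 : ((VV d m).card : ℝ) ^ ((1 : ℝ) / 12) ≤ 9 / 8 * m := by
      rw [card_VV hd]
      have e : ((4 * m ^ 12 : ℕ) : ℝ) ≤ (9 / 8 * (m : ℝ)) ^ (12 : ℝ) := by
        rw [show (12 : ℝ) = ((12 : ℕ) : ℝ) by norm_num, Real.rpow_natCast]
        push_cast
        rw [mul_pow]
        gcongr
        norm_num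
      calc ((4 * m ^ 12 : ℕ) : ℝ) ^ ((1 : ℝ) / 12)
          ≤ ((9 / 8 * (m : ℝ)) ^ (12 : ℝ)) ^ ((1 : ℝ) / 12) :=
            Real.rpow_le_rpow (by positivity) e (by norm_num)
        _ = 9 / 8 * m := by
            rw [← Real.rpow_mul (by positivity)]
            norm_num
    calc ((VV d m).card : ℝ) ^ ((1 : ℝ) / 12) * bracket (VV d m) (m ^ 3)
        ≤ 9 / 8 * m * bracket (VV d m) (m ^ 3) := by gcongr
      _ = 9 / 8 * (m * bracket (VV d m) (m ^ 3)) := by ring
      _ ≤ 9 / 8 * (148 * ((richLines (VV d m) (m ^ 3)).ncard : ℝ)) := by gcongr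
      _ ≤ 200 * ((richLines (VV d m) (m ^ 3)).ncard : ℝ) := by
          have : (0 : ℝ) ≤ ((richLines (VV d m) (m ^ 3)).ncard : ℝ) := by positivity
          linarith
  · intro C
    obtain ⟨k, hk⟩ := exists_nat_gt (148 * C)
    set m := max k 2 with hmdef
    have hm : 2 ≤ m := le_max_right _ _
    have hkm : (k : ℝ) ≤ m := by exact_mod_cast le_max_left k 2
    refine ⟨VV d m, m ^ 3, hm.trans (Nat.le_self_pow (by norm_num) m), ?_⟩
    have h1 := main m hm
    have h2 := bracket_nonneg (VV d m) (m ^ 3)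
    have hpos : (0 : ℝ) < ((richLines (VV d m) (m ^ 3)).ncard : ℝ) := by
      have := card_richLines hd hm
      have h3 : 0 < m ^ 10 := by positivity
      exact_mod_cast lt_of_lt_of_le h3 this
    rcases h2.eq_or_lt with h | h
    · rw [← h]
      simpa using hpos
    · have h4 : 148 * C * bracket (VV d m) (m ^ 3) < m * bracket (VV d m) (m ^ 3) := by
        apply mul_lt_mul_of_pos_right _ h
        linarith
      nlinarith

end Pool.Agent.Results.MP_0eaff0_co.RichLines
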